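import Pool.Agent.ASO.StmtsL

namespace Pool.Agent.PP.SO.H67

open Pool.Agent.PP.SO

theorem kcp : KcpStmt := by
  intro ℓ hℓ V₀ _ _ E₀ hF hdvd
  have hfin : Finite (MulAut V₀) := by
    have : Finite (V₀ ≃ V₀) := inferInstance
    exact Finite.of_injective (fun σ : MulAut V₀ => (σ.toEquiv : V₀ ≃ V₀)) (by
      intro a b hab
      ext x
      exact congrArg (fun e : V₀ ≃ V₀ => e x) hab)
  have hfinE : Finite E₀ := inferInstance
  obtain ⟨σ, hσ⟩ := exists_prime_orderOf_dvd_card' (G := E₀) ℓ hdvd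
  have hp : IsPGroup ℓ (Subgroup.zpowers (σ : MulAut V₀)) := by
    apply IsPGroup.of_card (n := 1)
    rw [Nat.card_zpowers, pow_one]
    have h1 : orderOf (σ : MulAut V₀) = orderOf σ := Subgroup.orderOf_coe σ
    rw [h1, hσ]
  have hdiv : ℓ ∣ Nat.card V₀ := by
    rw [hF.cd]
    exact dvd_pow_self ℓ (by norm_num)
  have h1 : (1 : V₀) ∈ MulAction.fixedPoints (Subgroup.zpowers (σ : MulAut V₀)) V₀ := by
    intro τ
    show (τ : MulAut V₀) 1 = 1
    exact map_one _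
  obtain ⟨v, hv, hv1⟩ := hp.exists_fixed_point_of_prime_dvd_card_of_fixed_point V₀ hdiv h1
  have hfix : (σ : MulAut V₀) v = v := hv ⟨(σ : MulAut V₀), Subgroup.mem_zpowers _⟩
  have hne : (σ : MulAut V₀) ≠ 1 := by
    intro h
    have h2 : orderOf (σ : MulAut V₀) = ℓ := by
      rw [Subgroup.orderOf_coe σ, hσ]
    rw [h, orderOf_one] at h2
    exact hℓ.out.one_lt.ne h2
  exact hv1 (hF.fr _ σ.2 hne v hfix).symm

end Pool.Agent.PP.SO.H67
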